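import Pool.Agent.Y320.CM.Basic2

/-!
# Project CM, second part: the subgroup of `SL(2, ℂ)`
-/

set_option autoImplicit false
open Filter Topology

namespace Pool.Agent.Y48.CM

open Pool.Agent.Y320.CM

/-- the action on vectors -/
noncomputable def mv (A : SL2) (u : Fin 2 → ℂ) : Fin 2 → ℂ :=
  Matrix.mulVec (A : Matrix (Fin 2) (Fin 2) ℂ) u

theorem mv_zero (A : SL2) (u : Fin 2 → ℂ) : mv A u 0 = A 0 0 * u 0 + A 0 1 * u 1 := by
  unfold mv
  simp [Matrix.mulVec, dotProduct, Fin.sum_univ_two]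

theorem mv_one (A : SL2) (u : Fin 2 → ℂ) : mv A u 1 = A 1 0 * u 0 + A 1 1 * u 1 := by
  unfold mv
  simp [Matrix.mulVec, dotProduct, Fin.sum_univ_two]

theorem wedge_mv (A : SL2) (u v : Fin 2 → ℂ) : wedge (mv A u) (mv A v) = wedge u v := by
  have h := A.2
  rw [Matrix.det_fin_two] at h
  change A 0 0 * A 1 1 - A 0 1 * A 1 0 = 1 at h
  unfold wedge
  rw [mv_zero, mv_one, mv_zero, mv_one]
  linear_combination (u 0 * v 1 - u 1 * v 0) * h

theorem wedge_smul_left (c : ℂ) (u v : Fin 2 → ℂ) : wedge (c • u) v = c * wedge u v := by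
  unfold wedge
  simp only [Pi.smul_apply, smul_eq_mul]
  ring

theorem wedge_smul_right (c : ℂ) (u v : Fin 2 → ℂ) : wedge u (c • v) = c * wedge u v := by
  unfold wedge
  simp only [Pi.smul_apply, smul_eq_mul]
  ring

theorem wedge_self (u : Fin 2 → ℂ) : wedge u u = 0 := by
  unfold wedge
  ring

theorem wedge_comm (u v : Fin 2 → ℂ) : wedge u v = -wedge v u := by
  unfold wedge
  ring

theorem exists_smul {u v : Fin 2 → ℂ} (hu : u ≠ 0) (h : wedge u v = 0) : ∃ c : ℂ, v = c • u := by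
  unfold wedge at h
  by_cases h0 : u 0 = 0
  · have h1 : u 1 ≠ 0 := by
      intro h1
      apply hu
      funext i
      fin_cases i
      · exact h0
      · exact h1
    refine ⟨v 1 / u 1, ?_⟩
    rw [h0] at h
    have h2 : v 0 = 0 := by
      have : u 1 * v 0 = 0 := by linear_combination -h
      exact (mul_eq_zero.1 this).resolve_left h1
    funext i
    fin_cases i
    · simp [h0, h2]
    · simp [h1]
  · refine ⟨v 0 / u 0, ?_⟩
    funext i
    fin_cases i
    · simp [h0]
    · simp only [Pi.smul_apply, smul_eq_mul, Fin.mk_one]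
      field_simp
      linear_combination h

theorem mv_smul (A : SL2) (c : ℂ) (u : Fin 2 → ℂ) : mv A (c • u) = c • mv A u := by
  unfold mv
  rw [Matrix.mulVec_smul]

theorem mv_mul (A C : SL2) (u : Fin 2 → ℂ) : mv (A * C) u = mv A (mv C u) := by
  unfold mv
  rw [Matrix.SpecialLinearGroup.coe_mul, Matrix.mulVec_mulVec]

theorem mv_one' (u : Fin 2 → ℂ) : mv 1 u = u := by
  unfold mv
  rw [Matrix.SpecialLinearGroup.coe_one, Matrix.one_mulVec]

theorem mv_inv (A : SL2) (u : Fin 2 → ℂ) : mv A (mv A⁻¹ u) = u := by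
  rw [← mv_mul, mul_inv_cancel, mv_one']

theorem mv_ne_zero (A : SL2) {u : Fin 2 → ℂ} (hu : u ≠ 0) : mv A u ≠ 0 := by
  intro h
  apply hu
  have h1 : mv A⁻¹ (mv A u) = u := by
    rw [← mv_mul, inv_mul_cancel, mv_one']
  rw [← h1, h]
  unfold mv
  rw [Matrix.mulVec_zero]

section

variable {G : Type} [Group G] {τ : G → Sph → Sph} {F : Sph → Sph}

theorem rel_iff {A : SL2} {g : G} : Rel τ F A g ↔ ∀ a, wedge (mv A (sp (F a))) (sp (F (τ g a))) = 0 :=
  Iff.rfl

theorem rel_unique_tau (hF : Function.Injective F) {A : SL2} {g h : G} (hg : Rel τ F A g) (hh : Rel τ F A h)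
    (a : Sph) : τ g a = τ h a := by
  obtain ⟨c, hc⟩ := exists_smul (mv_ne_zero A (sp_ne_zero (F a))) (hg a)
  obtain ⟨d, hd⟩ := exists_smul (mv_ne_zero A (sp_ne_zero (F a))) (hh a)
  apply hF
  rw [← wedge_eq_zero_iff, hc, hd, wedge_smul_left, wedge_smul_right, wedge_self, mul_zero, mul_zero]

theorem triv_of_tau (hA : Act G τ) (hG : ∀ g : G, g ≠ 1 → orderOf g = 0) {g : G} (h : ∀ a, τ g a = a) : g = 1 := by
  classical
  by_contra hg
  have h0 := hG g hg
  have hinf : ¬ IsOfFinOrder g := by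
    rw [← orderOf_eq_zero_iff]
    exact h0
  obtain ⟨a, -⟩ := exists_new ∅
  obtain ⟨b, hb⟩ := exists_new {a}
  obtain ⟨e, he⟩ := exists_new {a, b}
  have hab : a ≠ b := by
    rintro rfl
    simp at hb
  have hae : a ≠ e := by
    rintro rfl
    simp at he
  have hbe : b ≠ e := by
    rintro rfl
    simp at he
  have hpos : 0 < min (dist a b) (min (dist a e) (dist b e)) :=
    lt_min (dist_pos.2 hab) (lt_min (dist_pos.2 hae) (dist_pos.2 hbe))
  have hfin := hA.prop a b e hab hae hbe _ hpos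
  have hpow : ∀ (n : ℕ) x, τ (g ^ n) x = x := by
    intro n
    induction n with
    | zero =>
      intro x
      rw [pow_zero, hA.one]
    | succ n ih =>
      intro x
      rw [pow_succ, hA.mul, h, ih]
  have hinj : Function.Injective fun n : ℕ => g ^ n := injective_pow_iff_not_isOfFinOrder.2 hinf
  have hsub : Set.range (fun n : ℕ => g ^ n) ⊆ {g : G | min (dist a b) (min (dist a e) (dist b e)) ≤
      dist (τ g a) (τ g b) ∧ min (dist a b) (min (dist a e) (dist b e)) ≤ dist (τ g a) (τ g e) ∧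
      min (dist a b) (min (dist a e) (dist b e)) ≤ dist (τ g b) (τ g e)} := by
    rintro _ ⟨n, rfl⟩
    simp only [Set.mem_setOf_eq, hpow]
    exact ⟨min_le_left _ _, (min_le_right _ _).trans (min_le_left _ _),
      (min_le_right _ _).trans (min_le_right _ _)⟩
  exact Set.infinite_range_of_injective hinj (hfin.subset hsub)

theorem rel_unique (hA : Act G τ) (hG : ∀ g : G, g ≠ 1 → orderOf g = 0) (hF : Function.Injective F)
    {A : SL2} {g h : G} (hg : Rel τ F A g) (hh : Rel τ F A h) : g = h := by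
  have h1 : g⁻¹ * h = 1 := by
    refine triv_of_tau hA hG fun a => ?_
    rw [hA.mul, ← rel_unique_tau hF hg hh, ← hA.mul, inv_mul_cancel, hA.one]
  have := eq_of_inv_mul_eq_one h1
  exact this

theorem rel_one (hA : Act G τ) : Rel τ F 1 (1 : G) := by
  rw [rel_iff]
  intro a
  rw [mv_one', hA.one, wedge_self]

theorem rel_mul (hA : Act G τ) {A C : SL2} {g h : G} (hg : Rel τ F A g) (hh : Rel τ F C h) :
    Rel τ F (A * C) (g * h) := by
  rw [rel_iff] at *
  intro a
  rw [mv_mul, hA.mul]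
  obtain ⟨c, hc⟩ := exists_smul (mv_ne_zero C (sp_ne_zero (F a))) (hh a)
  have hc0 : c ≠ 0 := by
    rintro rfl
    rw [zero_smul] at hc
    exact sp_ne_zero _ hc
  have h1 := hg (τ h a)
  rw [hc, mv_smul, wedge_smul_left] at h1
  exact (mul_eq_zero.1 h1).resolve_left hc0

theorem rel_inv (hA : Act G τ) {A : SL2} {g : G} (hg : Rel τ F A g) : Rel τ F A⁻¹ g⁻¹ := by
  rw [rel_iff] at *
  intro a
  rw [← wedge_mv A, mv_inv, wedge_comm]
  have h1 := hg (τ g⁻¹ a)
  rw [← hA.mul, mul_inv_cancel, hA.one] at h1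
  rw [h1, neg_zero]

theorem center_of_rel_one (hA : Act G τ) (hF : Function.Surjective F) {A : SL2} (h : Rel τ F A (1 : G)) :
    A ∈ Subgroup.center SL2 := by
  have h1 : ∀ p, wedge (mv A (sp p)) (sp p) = 0 := by
    intro p
    obtain ⟨a, rfl⟩ := hF p
    have := rel_iff.1 h a
    rwa [hA.one] at this
  have h2 : ∀ z : ℂ, (A 0 0 + A 0 1 * z) * z - (A 1 0 + A 1 1 * z) = 0 := by
    intro z
    have h3 := h1 (sg z)
    rw [sp_sg, mv_smul, wedge_smul_left, wedge_smul_right] at h3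
    have h4 : ((2 / (1 + ‖z‖ ^ 2) : ℝ) : ℂ) ≠ 0 := by
      have : (2 / (1 + ‖z‖ ^ 2) : ℝ) ≠ 0 := by positivity
      exact_mod_cast this
    have h5 := (mul_eq_zero.1 ((mul_eq_zero.1 h3).resolve_left h4)).resolve_left h4
    unfold wedge at h5
    rw [mv_zero, mv_one] at h5
    simp only [Matrix.cons_val_zero, Matrix.cons_val_one, mul_one] at h5
    exact h5
  have e0 := h2 0
  have e1 := h2 1
  have e2 := h2 (-1)
  have c0 : A 1 0 = 0 := by linear_combination -e0
  have b0 : A 0 1 = 0 := by linear_combination (1 / 2) * e1 + (1 / 2) * e2 + c0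
  have ad : A 0 0 = A 1 1 := by linear_combination (1 / 2) * e1 - (1 / 2) * e2
  rw [Matrix.SpecialLinearGroup.mem_center_iff]
  refine ⟨A 0 0, ?_, ?_⟩
  · have h := A.2
    rw [Matrix.det_fin_two] at h
    change A 0 0 * A 1 1 - A 0 1 * A 1 0 = 1 at h
    rw [b0, ← ad] at h
    rw [Fintype.card_fin]
    linear_combination h
  · ext i j
    rw [Matrix.scalar_apply]
    fin_cases i <;> fin_cases j
    · simp
    · simpa using b0.symm
    · simpa using c0.symm
    · simpa using ad

theorem rel_one_of_center (hA : Act G τ) {A : SL2} (h : A ∈ Subgroup.center SL2) : Rel τ F A (1 : G) := by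
  obtain ⟨r, -, hr⟩ := Matrix.SpecialLinearGroup.mem_center_iff.1 h
  rw [rel_iff]
  intro a
  have h1 : mv A (sp (F a)) = r • sp (F a) := by
    unfold mv
    rw [← hr, Matrix.scalar_apply]
    funext i
    rw [Matrix.mulVec_diagonal]
    rfl
  rw [hA.one, h1, wedge_smul_left, wedge_self, mul_zero]

end

theorem psla : S_PSLA := by
  classical
  intro G _ τ hA hG F hF hex
  let Γ : Subgroup SL2 :=
    { carrier := {A | ∃ g : G, Rel τ F A g}
      mul_mem' := by
        rintro A C ⟨g, hg⟩ ⟨h, hh⟩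
        exact ⟨g * h, rel_mul hA hg hh⟩
      one_mem' := ⟨1, rel_one hA⟩
      inv_mem' := by
        rintro A ⟨g, hg⟩
        exact ⟨g⁻¹, rel_inv hA hg⟩ }
  have hmem : ∀ A : SL2, A ∈ Γ ↔ ∃ g : G, Rel τ F A g := fun A => Iff.rfl
  choose f hf using fun A : Γ => (hmem A.1).1 A.2
  have huniq : ∀ (A : Γ) (g : G), Rel τ F (A : SL2) g → f A = g := fun A g hg =>
    rel_unique hA hG hF.1 (hf A) hg
  let ψ : Γ →* G := MonoidHom.mk' f fun A C => huniq (A * C) (f A * f C) (rel_mul hA (hf A) (hf C))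
  refine ⟨Γ, ψ, hf, hmem, ?_, ?_⟩
  · intro g
    obtain ⟨A, hAg⟩ := hex g
    exact ⟨⟨A, g, hAg⟩, huniq _ _ hAg⟩
  · ext A
    rw [MonoidHom.mem_ker, Subgroup.mem_subgroupOf]
    constructor
    · intro h
      have h1 := hf A
      have h2 : f A = 1 := h
      rw [h2] at h1
      exact center_of_rel_one hA hF.2 h1
    · intro h
      exact huniq A 1 (rel_one_of_center hA h)

end Pool.Agent.Y48.CM
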